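import Pool.Agent.Helper20.NS5.Goals

/-!
# Hölder's inequality for the weighted moments
-/

namespace Pool.Agent.Helper74.NS5

open Finset Pool.Agent.Helper20.NS5

section

open Classical

variable {β : Type} (F : ℕ → β) (n : ℕ)

/-- The number of elements of a class. -/
noncomputable def cc (b : β) : ℕ := ((range (2 ^ n)).filter fun z' => F z' = b).card

/-- The sum over a class. -/
noncomputable def dd (g : ℕ → ℤ) (b : β) : ℤ :=
  ∑ z' ∈ (range (2 ^ n)).filter (fun z' => F z' = b), g z'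

theorem cc_pos {b : β} (hb : b ∈ (range (2 ^ n)).image F) : 0 < cc F n b := by
  obtain ⟨z, hz, rfl⟩ := Finset.mem_image.1 hb
  exact Finset.card_pos.2 ⟨z, Finset.mem_filter.2 ⟨hz, rfl⟩⟩

theorem cc_le (b : β) : cc F n b ≤ 2 ^ n := by
  refine (Finset.card_filter_le _ _).trans ?_
  simp

theorem sum_cc_le {s : Finset β} (hs : s ⊆ (range (2 ^ n)).image F) :
    ∑ b ∈ s, cc F n b ≤ 2 ^ n := by
  calc ∑ b ∈ s, cc F n b ≤ ∑ b ∈ (range (2 ^ n)).image F, cc F n b :=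
        Finset.sum_le_sum_of_subset hs
    _ = (range (2 ^ n)).card :=
        (Finset.card_eq_sum_card_fiberwise fun z hz => Finset.mem_image_of_mem F hz).symm
    _ = 2 ^ n := Finset.card_range _

theorem wt_up {b : β} (hb : b ∈ (range (2 ^ n)).image F) :
    cc F n b * 2 ^ (n - Nat.log 2 (cc F n b)) ≤ 2 ^ (n + 1) := by
  have h1 : cc F n b < 2 ^ (Nat.log 2 (cc F n b) + 1) := Nat.lt_pow_succ_log_self one_lt_two _
  have h2 : Nat.log 2 (cc F n b) ≤ n := by
    have := Nat.log_mono_right (b := 2) (cc_le F n b)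
    rwa [Nat.log_pow one_lt_two] at this
  calc cc F n b * 2 ^ (n - Nat.log 2 (cc F n b))
      ≤ 2 ^ (Nat.log 2 (cc F n b) + 1) * 2 ^ (n - Nat.log 2 (cc F n b)) :=
        Nat.mul_le_mul_right _ h1.le
    _ = 2 ^ (n + 1) := by
        rw [← pow_add]
        congr 1
        omega

theorem wt_low {b : β} (hb : b ∈ (range (2 ^ n)).image F) :
    2 ^ n ≤ 2 ^ (n - Nat.log 2 (cc F n b)) * cc F n b := by
  have h0 := cc_pos F n hb
  have h1 : 2 ^ Nat.log 2 (cc F n b) ≤ cc F n b := Nat.pow_log_le_self 2 h0.ne'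
  have h2 : Nat.log 2 (cc F n b) ≤ n := by
    have := Nat.log_mono_right (b := 2) (cc_le F n b)
    rwa [Nat.log_pow one_lt_two] at this
  calc 2 ^ n = 2 ^ (n - Nat.log 2 (cc F n b)) * 2 ^ Nat.log 2 (cc F n b) := by
        rw [← pow_add]
        congr 1
        omega
    _ ≤ _ := Nat.mul_le_mul_left _ h1

theorem mv_le : Mv F n ≤ 2 ^ (n + 1) * nv F n Set.univ := by
  have h1 : Mv F n = ∑ z ∈ range (2 ^ n), (fun b => 2 ^ (n - Nat.log 2 (cc F n b))) (F z) := rfl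
  have h2 : nv F n Set.univ = ((range (2 ^ n)).image F).card := by
    unfold nv
    congr 1
    ext b
    simp
  rw [h1, Finset.sum_comp (fun b => 2 ^ (n - Nat.log 2 (cc F n b))) F, h2]
  calc ∑ b ∈ (range (2 ^ n)).image F,
        ((range (2 ^ n)).filter fun a => F a = b).card • 2 ^ (n - Nat.log 2 (cc F n b))
      ≤ ∑ b ∈ (range (2 ^ n)).image F, 2 ^ (n + 1) := by
        refine Finset.sum_le_sum fun b hb => ?_
        exact wt_up F n hb
    _ = 2 ^ (n + 1) * ((range (2 ^ n)).image F).card := by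
        rw [Finset.sum_const, smul_eq_mul, mul_comm]

theorem sv_eq (T : Set β) (g : ℕ → ℤ) :
    sv F n T g = ∑ b ∈ ((range (2 ^ n)).image F).filter (fun b => b ∈ T), dd F n g b := by
  unfold sv
  rw [← Finset.sum_fiberwise_of_maps_to (t := ((range (2 ^ n)).image F).filter (fun b => b ∈ T))
    (g := F)]
  · refine Finset.sum_congr rfl fun b hb => ?_
    unfold dd
    refine Finset.sum_congr ?_ fun _ _ => rfl
    ext z
    simp only [Finset.mem_filter]
    constructor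
    · rintro ⟨⟨h1, h2⟩, h3⟩
      exact ⟨h1, h3⟩
    · rintro ⟨h1, h3⟩
      refine ⟨⟨h1, ?_⟩, h3⟩
      rw [h3]
      exact (Finset.mem_filter.1 hb).2
  · intro z hz
    obtain ⟨h1, h2⟩ := Finset.mem_filter.1 hz
    exact Finset.mem_filter.2 ⟨Finset.mem_image_of_mem F h1, h2⟩

theorem yv_eq (k : ℕ) (g : ℕ → ℤ) :
    Yv F n k g = ∑ b ∈ (range (2 ^ n)).image F,
      (cc F n b : ℤ) * (dd F n g b ^ (2 * k) * 2 ^ ((k + 1) * (n - Nat.log 2 (cc F n b)))) := by
  have h1 : Yv F n k g = ∑ z ∈ range (2 ^ n),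
      (fun b => dd F n g b ^ (2 * k) * 2 ^ ((k + 1) * (n - Nat.log 2 (cc F n b)))) (F z) := rfl
  rw [h1, Finset.sum_comp (fun b => dd F n g b ^ (2 * k) *
    2 ^ ((k + 1) * (n - Nat.log 2 (cc F n b)))) F]
  refine Finset.sum_congr rfl fun b hb => ?_
  rw [nsmul_eq_mul]
  rfl

end

theorem hol : HOL_stmt := by
  classical
  intro β k n F T g hk
  refine ⟨?_, mv_le F n⟩
  obtain ⟨m, rfl⟩ : ∃ m, k = m + 1 := ⟨k - 1, by omega⟩
  have hsv := sv_eq F n T g
  have hnv : nv F n T = (@Finset.filter β (fun b => b ∈ T) (fun b => Classical.propDecidable _)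
    (@Finset.image ℕ β (fun a b => Classical.propDecidable _) F (range (2 ^ n)))).card := rfl
  have hyv := yv_eq F n (m + 1) g
  set I := (@Finset.image ℕ β (fun a b => Classical.propDecidable _) F (range (2 ^ n))) with hI
  set I' := (@Finset.filter β (fun b => b ∈ T) (fun b => Classical.propDecidable _) I) with hI'
  have hsub : I' ⊆ I := Finset.filter_subset _ _
  have hC : ∀ b ∈ I, (0 : ℝ) < (cc F n b : ℝ) := fun b hb => by
    exact_mod_cast cc_pos F n hb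
  -- the Cauchy-Schwarz inequality
  have h1 : (∑ b ∈ I', (dd F n g b : ℝ)) ^ 2 ≤
      2 ^ n * ∑ b ∈ I', (dd F n g b : ℝ) ^ 2 / (cc F n b : ℝ) := by
    refine (Finset.sum_sq_le_sum_mul_sum_of_sq_le_mul I' (f := fun b => (cc F n b : ℝ))
      (g := fun b => (dd F n g b : ℝ) ^ 2 / (cc F n b : ℝ)) (fun b _ => Nat.cast_nonneg _)
      (fun b hb => div_nonneg (sq_nonneg _) (Nat.cast_nonneg _)) ?_).trans ?_
    · intro b hb
      have := (hC b (hsub hb)).ne'
      refine le_of_eq ?_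
      field_simp
    · refine mul_le_mul_of_nonneg_right ?_
        (Finset.sum_nonneg fun b hb => div_nonneg (sq_nonneg _) (Nat.cast_nonneg _))
      exact_mod_cast sum_cc_le F n hsub
  -- the power means
  have h2 : (∑ b ∈ I', (dd F n g b : ℝ) ^ 2 / (cc F n b : ℝ)) ^ (m + 1) ≤
      (I'.card : ℝ) ^ m * ∑ b ∈ I', ((dd F n g b : ℝ) ^ 2 / (cc F n b : ℝ)) ^ (m + 1) := by
    rcases I'.eq_empty_or_nonempty with h | h
    · rw [h]
      simp
    · have h4 := pow_sum_div_card_le_sum_pow (s := I')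
        (f := fun b => (dd F n g b : ℝ) ^ 2 / (cc F n b : ℝ)) 
        (fun b hb => div_nonneg (sq_nonneg _) (Nat.cast_nonneg _)) m
      have h5 : (0 : ℝ) < (I'.card : ℝ) ^ m := pow_pos (by exact_mod_cast h.card_pos) m
      rw [div_le_iff₀ h5] at h4
      linarith
  -- each summand
  have h3 : ∀ b ∈ I, (2 : ℝ) ^ (n * (m + 2)) * ((dd F n g b : ℝ) ^ 2 / (cc F n b : ℝ)) ^ (m + 1) ≤
      (cc F n b : ℝ) * ((dd F n g b : ℝ) ^ (2 * (m + 1)) *
        2 ^ ((m + 1 + 1) * (n - Nat.log 2 (cc F n b)))) := by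
    intro b hb
    have hc := hC b hb
    have h4 : (2 : ℝ) ^ n ≤ 2 ^ (n - Nat.log 2 (cc F n b)) * (cc F n b : ℝ) := by
      exact_mod_cast wt_low F n hb
    have h5 : (2 : ℝ) ^ (n * (m + 2)) ≤
        2 ^ ((m + 1 + 1) * (n - Nat.log 2 (cc F n b))) * (cc F n b : ℝ) ^ (m + 2) := by
      have h6 := pow_le_pow_left₀ (by positivity) h4 (m + 2)
      rw [mul_pow, ← pow_mul, ← pow_mul] at h6
      rwa [mul_comm (n - _) (m + 2)] at h6
    rw [div_pow, ← pow_mul, ← mul_div_assoc, div_le_iff₀ (pow_pos hc _)]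
    calc (2 : ℝ) ^ (n * (m + 2)) * (dd F n g b : ℝ) ^ (2 * (m + 1))
        ≤ (2 ^ ((m + 1 + 1) * (n - Nat.log 2 (cc F n b))) * (cc F n b : ℝ) ^ (m + 2)) *
          (dd F n g b : ℝ) ^ (2 * (m + 1)) :=
          mul_le_mul_of_nonneg_right h5 (by rw [pow_mul]; positivity)
      _ = _ := by ring
  have h4 : (2 : ℝ) ^ n * (∑ b ∈ I', (dd F n g b : ℝ)) ^ (2 * (m + 1)) ≤
      (I'.card : ℝ) ^ m * ∑ b ∈ I, (cc F n b : ℝ) * ((dd F n g b : ℝ) ^ (2 * (m + 1)) *
        2 ^ ((m + 1 + 1) * (n - Nat.log 2 (cc F n b)))) := by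
    have hX : 0 ≤ ∑ b ∈ I', (dd F n g b : ℝ) ^ 2 / (cc F n b : ℝ) :=
      Finset.sum_nonneg fun b hb => div_nonneg (sq_nonneg _) (Nat.cast_nonneg _)
    calc (2 : ℝ) ^ n * (∑ b ∈ I', (dd F n g b : ℝ)) ^ (2 * (m + 1))
        = 2 ^ n * ((∑ b ∈ I', (dd F n g b : ℝ)) ^ 2) ^ (m + 1) := by rw [← pow_mul]
      _ ≤ 2 ^ n * (2 ^ n * ∑ b ∈ I', (dd F n g b : ℝ) ^ 2 / (cc F n b : ℝ)) ^ (m + 1) :=
          mul_le_mul_of_nonneg_left (pow_le_pow_left₀ (sq_nonneg _) h1 _) (by positivity)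
      _ = 2 ^ (n * (m + 2)) * (∑ b ∈ I', (dd F n g b : ℝ) ^ 2 / (cc F n b : ℝ)) ^ (m + 1) := by
          rw [mul_pow, ← mul_assoc, ← pow_mul, ← pow_add]
          congr 2
          ring
      _ ≤ 2 ^ (n * (m + 2)) * ((I'.card : ℝ) ^ m *
          ∑ b ∈ I', ((dd F n g b : ℝ) ^ 2 / (cc F n b : ℝ)) ^ (m + 1)) :=
          mul_le_mul_of_nonneg_left h2 (by positivity)
      _ = (I'.card : ℝ) ^ m * ∑ b ∈ I', 2 ^ (n * (m + 2)) *
          ((dd F n g b : ℝ) ^ 2 / (cc F n b : ℝ)) ^ (m + 1) := by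
          rw [← Finset.mul_sum]
          ring
      _ ≤ (I'.card : ℝ) ^ m * ∑ b ∈ I, 2 ^ (n * (m + 2)) *
          ((dd F n g b : ℝ) ^ 2 / (cc F n b : ℝ)) ^ (m + 1) := by
          refine mul_le_mul_of_nonneg_left ?_ (by positivity)
          exact Finset.sum_le_sum_of_subset_of_nonneg hsub fun b _ _ => by positivity
      _ ≤ _ := mul_le_mul_of_nonneg_left (Finset.sum_le_sum h3) (by positivity)
  rw [hsv, hnv, hyv]
  have h5 : m + 1 - 1 = m := rfl
  rw [h5]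
  exact_mod_cast h4

end Pool.Agent.Helper74.NS5
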